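import Pool.Agent.H8.BIG.Targets

/-!
Row DIM of the board big_modules.
-/

set_option autoImplicit false

open MvPolynomial
open Pool.Agent.H12.ZD (pmap v O Res DenseOrbit NoInv)
open Pool.Agent.H18.HIT Pool.Agent.H8.BIG

namespace Pool.Agent.H27.BIG

/-- differences of binomial coefficients -/
theorem choose_add_le (a M r : ℕ) :
    (a + r).choose (M + 1) ≤ a.choose (M + 1) + r * (a + r - 1).choose M := by
  induction r with
  | zero => simp
  | succ r ih =>
    have h1 : (a + (r + 1)).choose (M + 1) = (a + r).choose M + (a + r).choose (M + 1) := by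
      rw [← add_assoc, Nat.choose_succ_succ]
    have h2 : (a + r - 1).choose M ≤ (a + r).choose M :=
      Nat.choose_le_choose M (Nat.sub_le _ _)
    have h3 : a + (r + 1) - 1 = a + r := by omega
    rw [h1, h3]
    calc (a + r).choose M + (a + r).choose (M + 1)
        ≤ (a + r).choose M + (a.choose (M + 1) + r * (a + r - 1).choose M) := by omega
      _ ≤ (a + r).choose M + (a.choose (M + 1) + r * (a + r).choose M) := by
          have := Nat.mul_le_mul_left r h2
          omega
      _ = a.choose (M + 1) + (r + 1) * (a + r).choose M := by ring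

/-- the numerical contradiction -/
theorem num (M δ r m s : ℕ) (hδ : 1 ≤ δ) (hr : 1 ≤ r)
    (hm : m = (M + 1) * (δ + (M + 1)) ^ M + 1) (hs : s = m * r)
    (h : (s + (M + 1)).choose (M + 1) + (s * δ - r + (M + 1)).choose (M + 1) ≤
      (s * δ + (M + 1)).choose (M + 1)) : False := by
  have hm1 : 1 ≤ m := by omega
  have hs1 : 1 ≤ s := by rw [hs]; exact Nat.mul_pos hm1 hr
  have hrs : r ≤ s := by rw [hs]; exact Nat.le_mul_of_pos_left r hm1
  have hrsδ : r ≤ s * δ := hrs.trans (Nat.le_mul_of_pos_right s hδ)
  have h1 := choose_add_le (s * δ - r + (M + 1)) M r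
  have h2 : s * δ - r + (M + 1) + r = s * δ + (M + 1) := by omega
  rw [h2] at h1
  have h3 : s * δ + (M + 1) - 1 = s * δ + M := by omega
  rw [h3] at h1
  have h4 : (s + (M + 1)).choose (M + 1) ≤ r * (s * δ + M).choose M := by omega
  have h5 : (s + 1) ^ (M + 1) ≤ (M + 1).factorial * (s + (M + 1)).choose (M + 1) := by
    have h6 := Nat.pow_succ_le_ascFactorial (s + 1) (M + 1)
    rw [Nat.ascFactorial_eq_factorial_mul_choose] at h6
    exact h6
  have h7 : M.factorial * (s * δ + M).choose M ≤ (s * δ + M) ^ M := by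
    rw [← Nat.descFactorial_eq_factorial_mul_choose]
    exact Nat.descFactorial_le_pow _ _
  have h8 : (s * δ + M) ^ M ≤ (s * (δ + (M + 1))) ^ M := by
    apply Nat.pow_le_pow_left
    have : M ≤ s * (M + 1) := by nlinarith
    rw [Nat.mul_add]
    omega
  have h9 : (s + 1) ^ (M + 1) ≤ s ^ (M + 1) := by
    calc (s + 1) ^ (M + 1) ≤ (M + 1).factorial * (s + (M + 1)).choose (M + 1) := h5
      _ ≤ (M + 1).factorial * (r * (s * δ + M).choose M) := Nat.mul_le_mul_left _ h4
      _ = ((M + 1) * r) * (M.factorial * (s * δ + M).choose M) := by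
          rw [Nat.factorial_succ]; ring
      _ ≤ ((M + 1) * r) * (s * (δ + (M + 1))) ^ M := Nat.mul_le_mul_left _ (h7.trans h8)
      _ = s ^ M * (((M + 1) * (δ + (M + 1)) ^ M) * r) := by rw [mul_pow]; ring
      _ ≤ s ^ M * s := by
          apply Nat.mul_le_mul_left
          rw [hs]
          apply Nat.mul_le_mul_right
          omega
      _ = s ^ (M + 1) := (pow_succ _ _).symm
  exact absurd (Nat.pow_lt_pow_left (Nat.lt_succ_self s) (Nat.succ_ne_zero M)) (not_lt.mpr h9)

theorem pf_DIM (hRTD : T_RTD) : T_DIM := by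
  intro N k _ G δ hN hδ hG S hS
  obtain ⟨M, rfl⟩ : ∃ M, N = M + 1 := ⟨N - 1, by omega⟩
  rw [show M + 1 - 1 = M from rfl]
  set m : ℕ := (M + 1) * (δ + (M + 1)) ^ M + 1 with hm
  set r : ℕ := S.totalDegree with hr
  rcases Nat.eq_zero_or_pos r with hr0 | hr1
  · -- constants
    refine ⟨1, one_ne_zero, ?_, ?_⟩
    · rw [totalDegree_one]; exact Nat.zero_le _
    · have h1 : S = C (coeff 0 S) := totalDegree_eq_zero_iff_eq_C.mp (hr ▸ hr0)
      have h2 : coeff 0 S ≠ 0 := by
        intro h
        rw [h, C_0] at h1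
        exact hS h1
      rw [h1]
      exact ((IsUnit.mk0 _ h2).map C).dvd
  · by_contra hcon
    push Not at hcon
    set s : ℕ := m * r with hs
    have hm1 : 1 ≤ m := by omega
    have hrs : r ≤ s := Nat.le_mul_of_pos_left r hm1
    have hrsδ : r ≤ s * δ := hrs.trans (Nat.le_mul_of_pos_right s hδ)
    obtain ⟨hf1, hd1⟩ := hRTD (M + 1) k s
    obtain ⟨hf2, hd2⟩ := hRTD (M + 1) k (s * δ - r)
    obtain ⟨hf3, hd3⟩ := hRTD (M + 1) k (s * δ)
    let L : (restrictTotalDegree (Fin (M + 1)) k s × restrictTotalDegree (Fin (M + 1)) k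
        (s * δ - r)) →ₗ[k] restrictTotalDegree (Fin (M + 1)) k (s * δ) :=
      { toFun := fun p => ⟨aeval G p.1.1 - S * p.2.1, by
          rw [mem_restrictTotalDegree]
          refine (totalDegree_sub _ _).trans (max_le ?_ ?_)
          · refine (totalDegree_aeval_le G δ hG p.1.1).trans ?_
            exact Nat.mul_le_mul_right _ ((mem_restrictTotalDegree _ _ _).mp p.1.2)
          · refine (totalDegree_mul _ _).trans ?_
            have h1 : p.2.1.totalDegree ≤ s * δ - r :=
              (mem_restrictTotalDegree _ _ _).mp p.2.2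
            omega⟩
        map_add' := fun p q => by
          apply Subtype.ext
          simp only [Prod.fst_add, Prod.snd_add, Submodule.coe_add, map_add]
          ring
        map_smul' := fun c p => by
          apply Subtype.ext
          simp only [Prod.smul_fst, Prod.smul_snd, Submodule.coe_smul, map_smul,
            RingHom.id_apply, mul_smul_comm, smul_sub] }
    have hL : Function.Injective L := by
      rw [injective_iff_map_eq_zero]
      rintro ⟨⟨Q, hQ⟩, ⟨W, hW⟩⟩ h
      have h1 : aeval G Q - S * W = 0 := congrArg Subtype.val h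
      have h2 : aeval G Q = S * W := sub_eq_zero.mp h1
      have hQ0 : Q = 0 := by
        by_contra hQ0
        exact hcon Q hQ0 ((mem_restrictTotalDegree _ _ _).mp hQ) ⟨W, h2⟩
      have hW0 : W = 0 := by
        rw [hQ0, map_zero] at h2
        rcases mul_eq_zero.mp h2.symm with h3 | h3
        · exact absurd h3 hS
        · exact h3
      subst hQ0 hW0
      rfl
    have h4 := LinearMap.finrank_le_finrank_of_injective hL
    rw [Module.finrank_prod, hd1, hd2, hd3] at h4
    exact num M δ r m s hδ hr1 hm hs h4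

end Pool.Agent.H27.BIG
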